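import Mathlib

/-!
# Project GT: the geometric thickness of complete graphs (MP_7c440d_co)

Basic definitions: orientations, crossings, maximal plane geometric graphs, faces, tangents, depth,
and the counting function `cnt`.
-/

set_option autoImplicit false

namespace Pool.Agent.Helper96.GT

/-- the cross product of two vectors of the plane. -/
def cr (u v : ℝ × ℝ) : ℝ := u.1 * v.2 - u.2 * v.1

section defs

variable {ι : Type}

/-- the orientation of the triangle `a b c` (twice the signed area): positive iff `c` is strictly to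
the left of the directed line `a → b`. -/
def o (P : ι → ℝ × ℝ) (a b c : ι) : ℝ := cr (P b - P a) (P c - P a)

/-- general position: different points, no three collinear. -/
structure GP (P : ι → ℝ × ℝ) : Prop where
  inj : Function.Injective P
  ne : ∀ a b c, a ≠ b → a ≠ c → b ≠ c → o P a b c ≠ 0

/-- the segments `a b` and `c d` cross properly. -/
def X (P : ι → ℝ × ℝ) (a b c d : ι) : Prop :=
  o P a b c * o P a b d < 0 ∧ o P c d a * o P c d b < 0

/-- `T` is a maximal plane geometric graph on the points `P`. -/
structure Tri (P : ι → ℝ × ℝ) (T : ι → ι → Prop) : Prop where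
  symm : ∀ a b, T a b → T b a
  irrefl : ∀ a, ¬ T a a
  plane : ∀ a b c d, T a b → T c d → ¬ X P a b c d
  max : ∀ a b, a ≠ b → ¬ T a b → ∃ c d, T c d ∧ X P a b c d

/-- `a b c` (counterclockwise) is a face of `T`: all sides are edges, and no point is inside. -/
def Face (P : ι → ℝ × ℝ) (T : ι → ι → Prop) (a b c : ι) : Prop :=
  T a b ∧ T b c ∧ T c a ∧ 0 < o P a b c ∧ ∀ v, ¬ (0 < o P a b v ∧ 0 < o P b c v ∧ 0 < o P c a v)

/-- hull dart: no point is strictly to the left of `a → b`. -/
def HD (P : ι → ℝ × ℝ) (a b : ι) : Prop := a ≠ b ∧ ∀ c, ¬ 0 < o P a b c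

/-- tangents: for `p` outside of `M`, all of `M` is to the left of `p → t p`, and `t p` is in `M`. -/
structure Tan (P : ι → ℝ × ℝ) (M : ι → Prop) (t : ι → ι) : Prop where
  mem : ∀ p, ¬ M p → M (t p)
  left : ∀ p, ¬ M p → ∀ x, M x → x ≠ t p → 0 < o P p (t p) x

/-- `q` is strictly to the right of the tangent at `r`. -/
def R (P : ι → ℝ × ℝ) (t : ι → ι) (r q : ι) : Prop := o P r (t r) q < 0

/-- `q` is beyond `M` to the left, in the direction of the tangent at `r`. -/
def L (P : ι → ℝ × ℝ) (M : ι → Prop) (t : ι → ι) (r q : ι) : Prop :=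
  ∀ m, M m → o P r (t r) m < o P r (t r) q

end defs

/-! ### counting -/

open Classical in
/-- the number of elements with the property `p`. -/
noncomputable def cnt {α : Type} [Fintype α] (p : α → Prop) : ℕ := (Finset.univ.filter p).card

section cnt

variable {α β : Type} [Fintype α] [Fintype β]

theorem cnt_congr {p q : α → Prop} (h : ∀ a, p a ↔ q a) : cnt p = cnt q := by
  have : p = q := funext fun a => propext (h a)
  rw [this]

theorem cnt_mono {p q : α → Prop} (h : ∀ a, p a → q a) : cnt p ≤ cnt q := by
  classical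
  refine Finset.card_le_card fun a ha => ?_
  exact Finset.mem_filter.2 ⟨Finset.mem_univ _, h a (Finset.mem_filter.1 ha).2⟩

theorem cnt_le_of_inj {p : α → Prop} {q : β → Prop} (f : α → β) (h : ∀ a, p a → q (f a))
    (hf : ∀ a b, p a → p b → f a = f b → a = b) : cnt p ≤ cnt q := by
  classical
  refine Finset.card_le_card_of_injOn f ?_ ?_
  · intro a ha
    have := (Finset.mem_filter.1 ha).2
    exact Finset.mem_filter.2 ⟨Finset.mem_univ _, h a this⟩
  · intro a ha b hb hab
    exact hf a b (Finset.mem_filter.1 ha).2 (Finset.mem_filter.1 hb).2 hab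

theorem cnt_filter_or [DecidableEq α] (p q : α → Prop) :
    (@Finset.filter α (fun a => p a ∨ q a) (fun a => Classical.propDecidable _) Finset.univ) =
      (@Finset.filter α p (fun a => Classical.propDecidable _) Finset.univ) ∪
      (@Finset.filter α q (fun a => Classical.propDecidable _) Finset.univ) := by
  ext a
  simp

theorem cnt_or_le (p q : α → Prop) : cnt (fun a => p a ∨ q a) ≤ cnt p + cnt q := by
  classical
  unfold cnt
  rw [cnt_filter_or]
  exact Finset.card_union_le _ _

theorem cnt_add_of_disj {p q : α → Prop} (h : ∀ a, p a → ¬ q a) :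
    cnt (fun a => p a ∨ q a) = cnt p + cnt q := by
  classical
  unfold cnt
  rw [cnt_filter_or]
  apply Finset.card_union_of_disjoint
  rw [Finset.disjoint_left]
  intro a ha hb
  exact h a (Finset.mem_filter.1 ha).2 (Finset.mem_filter.1 hb).2

/-- split according to `q`. -/
theorem cnt_split (p q : α → Prop) : cnt p = cnt (fun a => p a ∧ q a) + cnt (fun a => p a ∧ ¬ q a) := by
  rw [← cnt_add_of_disj (fun a h h' => h'.2 h.2)]
  exact cnt_congr fun a => by tauto

theorem cnt_prod (p : α × β → Prop) : cnt p = ∑ a, cnt (fun b => p (a, b)) := by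
  classical
  unfold cnt
  simp_rw [Finset.card_filter]
  rw [Fintype.sum_prod_type]

theorem cnt_swap (p : α × β → Prop) : cnt p = cnt (fun e : β × α => p (e.2, e.1)) := by
  apply le_antisymm
  · exact cnt_le_of_inj (fun e => (e.2, e.1)) (fun a h => h) (fun a b _ _ h => by
      have h1 := congrArg Prod.fst h
      have h2 := congrArg Prod.snd h
      exact Prod.ext h2 h1)
  · exact cnt_le_of_inj (fun e => (e.2, e.1)) (fun a h => h) (fun a b _ _ h => by
      have h1 := congrArg Prod.fst h
      have h2 := congrArg Prod.snd h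
      exact Prod.ext h2 h1)

theorem cnt_pos {p : α → Prop} (h : ∃ a, p a) : 0 < cnt p := by
  classical
  obtain ⟨a, ha⟩ := h
  exact Finset.card_pos.2 ⟨a, Finset.mem_filter.2 ⟨Finset.mem_univ _, ha⟩⟩

theorem cnt_sum {p : α → Prop} : (cnt p) = ∑ a, (open Classical in if p a then 1 else 0) := by
  classical
  unfold cnt
  rw [Finset.card_filter]

theorem cnt_le_card (p : α → Prop) : cnt p ≤ Fintype.card α := by
  classical
  exact Finset.card_le_univ _

end cnt

section defs2

variable {ι : Type} [Fintype ι]

/-- the number of darts of `T` (twice the number of edges). -/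
noncomputable def dn (T : ι → ι → Prop) : ℕ := cnt (fun e : ι × ι => T e.1 e.2)

/-- the number of hull darts. -/
noncomputable def hd (P : ι → ℝ × ℝ) : ℕ := cnt (fun e : ι × ι => HD P e.1 e.2)

/-- the number of `r` outside of `M` such that `p`, `q` are on different sides of `M` in the direction
of the tangent at `r`. -/
noncomputable def wt (P : ι → ℝ × ℝ) (M : ι → Prop) (t : ι → ι) (p q : ι) : ℕ :=
  cnt (fun r => ¬ M r ∧ ((R P t r p ∧ L P M t r q) ∨ (L P M t r p ∧ R P t r q)))

/-- far pairs. -/
def Far (P : ι → ℝ × ℝ) (M : ι → Prop) (t : ι → ι) (δ : ℕ) (p q : ι) : Prop :=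
  (R P t p q ∨ L P M t p q) ∧ (R P t q p ∨ L P M t q p) ∧ δ ≤ wt P M t p q

/-- the depth of `p`: the smallest number of points in an open halfplane with `p` on its boundary. -/
noncomputable def depth (P : ι → ℝ × ℝ) (p : ι) : ℕ :=
  sInf {k | ∃ w : ℝ × ℝ, w ≠ 0 ∧ cnt (fun q => 0 < cr w (P q - P p)) = k}

/-- the number of points of depth `< y`. -/
noncomputable def us (P : ι → ℝ × ℝ) (y : ℕ) : ℕ := cnt (fun p => depth P p < y)

end defs2

/-! ### identities for `cr` and `o` -/

section ids

variable {ι : Type} (P : ι → ℝ × ℝ)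

theorem cr_add_right (u v w : ℝ × ℝ) : cr u (v + w) = cr u v + cr u w := by
  simp only [cr, Prod.fst_add, Prod.snd_add]; ring

theorem cr_sub_right (u v w : ℝ × ℝ) : cr u (v - w) = cr u v - cr u w := by
  simp only [cr, Prod.fst_sub, Prod.snd_sub]; ring

theorem cr_comm (u v : ℝ × ℝ) : cr u v = - cr v u := by
  simp only [cr]; ring

theorem cr_self (u : ℝ × ℝ) : cr u u = 0 := by
  simp only [cr]; ring

theorem o_rot (a b c : ι) : o P b c a = o P a b c := by
  simp only [o, cr, Prod.fst_sub, Prod.snd_sub]; ring

theorem o_swap (a b c : ι) : o P b a c = - o P a b c := by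
  simp only [o, cr, Prod.fst_sub, Prod.snd_sub]; ring

theorem o_swap' (a b c : ι) : o P a c b = - o P a b c := by
  simp only [o, cr, Prod.fst_sub, Prod.snd_sub]; ring

theorem o_left (a b : ι) : o P a b a = 0 := by
  simp only [o, cr, Prod.fst_sub, Prod.snd_sub]; ring

theorem o_right (a b : ι) : o P a b b = 0 := by
  simp only [o, cr, Prod.fst_sub, Prod.snd_sub]; ring

theorem o_same (a b : ι) : o P a a b = 0 := by
  simp only [o, cr, Prod.fst_sub, Prod.snd_sub]; ring

theorem o_sum (a b c x : ι) : o P a b x + o P b c x + o P c a x = o P a b c := by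
  simp only [o, cr, Prod.fst_sub, Prod.snd_sub]; ring

end ids

end Pool.Agent.Helper96.GT
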